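import Pool.Agent.W323.SC.Stm

/-! Project SC: the final real inequality. -/

set_option autoImplicit false
open Finset
open scoped Classical

namespace Pool.Agent.W478.SC.Fin

open Pool.Agent.W323.SC

theorem fin : S_Fin := by
  intro l x x' k v g s q X Y d hk hx hx' hv hg hs hq hX hY h1 h2 h3 h4
  have hx0 : 0 ≤ x := by linarith
  have hx0' : 0 ≤ x' := by linarith
  have hxx : 1 ≤ x * x' := by nlinarith
  have hlk : 1 ≤ l * k := hxx.trans h2
  have hl : 0 < l := by
    by_contra h
    push Not at h
    nlinarith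
  have hv0 : 0 ≤ v - 1 := by linarith
  have hE1 : 1 ≤ Real.exp g := Real.one_le_exp hg
  have hE2 : (1 - g) * Real.exp g ≤ 1 := by
    have h5 := Real.add_one_le_exp (-g)
    have h6 : Real.exp (-g) * Real.exp g = 1 := by
      rw [← Real.exp_add]
      simp
    have h7 : (-g + 1) * Real.exp g ≤ Real.exp (-g) * Real.exp g :=
      mul_le_mul_of_nonneg_right h5 (Real.exp_pos g).le
    rw [h6] at h7
    linarith
  have hA : 0 ≤ l * (v - 1) := mul_nonneg hl.le hv0
  have hXY : 0 ≤ X * Y := mul_nonneg hX hY
  -- the key inequality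
  have key : l * (v - 1) * (k * (s - q - s * g)) ≤ x * x' * (X * Y) := by
    rcases le_or_gt (s - q - s * g) 0 with h | h
    · have h5 : l * (v - 1) * (k * (s - q - s * g)) ≤ 0 := by
        refine mul_nonpos_of_nonneg_of_nonpos hA ?_
        exact mul_nonpos_of_nonneg_of_nonpos (by linarith) h
      have h6 : 0 ≤ x * x' * (X * Y) := mul_nonneg (by linarith) hXY
      linarith
    · have h5 : l * k * ((v - 1) * (s - q - s * g)) ≤
          x * x' * Real.exp g * ((v - 1) * (s - q - s * g)) :=
        mul_le_mul_of_nonneg_right h1 (mul_nonneg hv0 h.le)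
      have h6 : Real.exp g * (s - q - s * g) ≤ s - q := by
        have h7 : s * ((1 - g) * Real.exp g) ≤ s * 1 := mul_le_mul_of_nonneg_left hE2 hs
        have h8 : q * 1 ≤ q * Real.exp g := mul_le_mul_of_nonneg_left hE1 hq
        nlinarith
      have h7 : x * x' * ((v - 1) * (Real.exp g * (s - q - s * g))) ≤
          x * x' * ((v - 1) * (s - q)) :=
        mul_le_mul_of_nonneg_left (mul_le_mul_of_nonneg_left h6 hv0) (by linarith)
      have h8 : x * x' * ((s - q) * (v - 1)) ≤ x * x' * (X * Y) :=
        mul_le_mul_of_nonneg_left h3 (by linarith)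
      nlinarith
  have h5 : l * (v - 1) * (l * v - d) ≤
      l * (v - 1) * (l * (v - 1) - x * X - x' * Y + k * (s - q - s * g)) := by
    refine mul_le_mul_of_nonneg_left ?_ hA
    nlinarith
  nlinarith

end Pool.Agent.W478.SC.Fin
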